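import Pool.Agent.Helper68.Fam.Goals

/-!
# Packet FAM-MIN2 (MP_18808e_co)
-/

namespace NApexGraphs.Fam.Helper72

open SimpleGraph NApexGraphs NApexGraphs.Dom NApexGraphs.Fam

/-- the first part -/
def PA {n : ℕ} (x : Fin 3 ⊕ Fin 3 ⊕ Fin n) : Prop := ∃ i, x = Sum.inl i

/-- the second part -/
def PB {n : ℕ} (x : Fin 3 ⊕ Fin 3 ⊕ Fin n) : Prop := ∃ i, x = Sum.inr (Sum.inl i)

theorem adj_iff {n : ℕ} {x y : Fin 3 ⊕ Fin 3 ⊕ Fin n} :
    (K331 n).Adj x y ↔ x ≠ y ∧ ¬ (PA x ∧ PA y) ∧ ¬ (PB x ∧ PB y) := by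
  have h : ∀ z : Fin 3 ⊕ Fin 3 ⊕ Fin n, z.isLeft = true ↔ PA z := by
    rintro (z | z)
    · simp [PA]
    · simp [PA]
  show x ≠ y ∧ ¬ (x.isLeft ∧ y.isLeft) ∧ ¬ (PB x ∧ PB y) ↔ _
  rw [h x, h y]

theorem not_AB {n : ℕ} {x : Fin 3 ⊕ Fin 3 ⊕ Fin n} (h1 : PA x) (h2 : PB x) : False := by
  obtain ⟨i, hi⟩ := h1
  obtain ⟨j, hj⟩ := h2
  rw [hi] at hj
  cases hj

theorem pick3 (i : Fin 3) : ∃ a a' : Fin 3, a ≠ a' ∧ a ≠ i ∧ a' ≠ i := by
  revert i
  decide

theorem pickA {n : ℕ} (x y : Fin 3 ⊕ Fin 3 ⊕ Fin n) (h : ¬ (PA x ∧ PA y)) :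
    ∃ a a' : Fin 3 ⊕ Fin 3 ⊕ Fin n, PA a ∧ PA a' ∧ a ≠ a' ∧ a ≠ x ∧ a ≠ y ∧ a' ≠ x ∧ a' ≠ y := by
  by_cases hx : PA x
  · have hy : ¬ PA y := fun hy => h ⟨hx, hy⟩
    obtain ⟨i, rfl⟩ := hx
    obtain ⟨a, a', h1, h2, h3⟩ := pick3 i
    refine ⟨Sum.inl a, Sum.inl a', ⟨a, rfl⟩, ⟨a', rfl⟩, fun h => h1 (Sum.inl.inj h),
      fun h => h2 (Sum.inl.inj h), ?_, fun h => h3 (Sum.inl.inj h), ?_⟩
    · rintro rfl; exact hy ⟨a, rfl⟩
    · rintro rfl; exact hy ⟨a', rfl⟩
  · by_cases hy : PA y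
    · obtain ⟨i, rfl⟩ := hy
      obtain ⟨a, a', h1, h2, h3⟩ := pick3 i
      refine ⟨Sum.inl a, Sum.inl a', ⟨a, rfl⟩, ⟨a', rfl⟩, fun h => h1 (Sum.inl.inj h),
        ?_, fun h => h2 (Sum.inl.inj h), ?_, fun h => h3 (Sum.inl.inj h)⟩
      · rintro rfl; exact hx ⟨a, rfl⟩
      · rintro rfl; exact hx ⟨a', rfl⟩
    · refine ⟨Sum.inl 0, Sum.inl 1, ⟨0, rfl⟩, ⟨1, rfl⟩, ?_, ?_, ?_, ?_, ?_⟩
      · intro h; exact absurd (Sum.inl.inj h) (by decide)
      · rintro rfl; exact hx ⟨_, rfl⟩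
      · rintro rfl; exact hy ⟨_, rfl⟩
      · rintro rfl; exact hx ⟨_, rfl⟩
      · rintro rfl; exact hy ⟨_, rfl⟩

theorem pickB {n : ℕ} (x y : Fin 3 ⊕ Fin 3 ⊕ Fin n) (h : ¬ (PB x ∧ PB y)) :
    ∃ a a' : Fin 3 ⊕ Fin 3 ⊕ Fin n, PB a ∧ PB a' ∧ a ≠ a' ∧ a ≠ x ∧ a ≠ y ∧ a' ≠ x ∧ a' ≠ y := by
  have inj : ∀ {i j : Fin 3}, (Sum.inr (Sum.inl i) : Fin 3 ⊕ Fin 3 ⊕ Fin n) = Sum.inr (Sum.inl j) →
      i = j := fun h => Sum.inl.inj (Sum.inr.inj h)
  by_cases hx : PB x
  · have hy : ¬ PB y := fun hy => h ⟨hx, hy⟩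
    obtain ⟨i, rfl⟩ := hx
    obtain ⟨a, a', h1, h2, h3⟩ := pick3 i
    refine ⟨Sum.inr (Sum.inl a), Sum.inr (Sum.inl a'), ⟨a, rfl⟩, ⟨a', rfl⟩, fun h => h1 (inj h),
      fun h => h2 (inj h), ?_, fun h => h3 (inj h), ?_⟩
    · rintro rfl; exact hy ⟨a, rfl⟩
    · rintro rfl; exact hy ⟨a', rfl⟩
  · by_cases hy : PB y
    · obtain ⟨i, rfl⟩ := hy
      obtain ⟨a, a', h1, h2, h3⟩ := pick3 i
      refine ⟨Sum.inr (Sum.inl a), Sum.inr (Sum.inl a'), ⟨a, rfl⟩, ⟨a', rfl⟩,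
        fun h => h1 (inj h), ?_, fun h => h2 (inj h), ?_, fun h => h3 (inj h)⟩
      · rintro rfl; exact hx ⟨a, rfl⟩
      · rintro rfl; exact hx ⟨a', rfl⟩
    · refine ⟨Sum.inr (Sum.inl 0), Sum.inr (Sum.inl 1), ⟨0, rfl⟩, ⟨1, rfl⟩, ?_, ?_, ?_, ?_, ?_⟩
      · intro h; exact absurd (inj h) (by decide)
      · rintro rfl; exact hx ⟨_, rfl⟩
      · rintro rfl; exact hy ⟨_, rfl⟩
      · rintro rfl; exact hx ⟨_, rfl⟩
      · rintro rfl; exact hy ⟨_, rfl⟩

/-- equator -/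
structure Eqr {n : ℕ} (E : Finset (Fin 3 ⊕ Fin 3 ⊕ Fin n)) : Prop where
  tri : ∀ T : Finset (Fin 3 ⊕ Fin 3 ⊕ Fin n),
    (∀ x ∈ T, ∀ y ∈ T, x ≠ y → (K331 n).Adj x y) → (T ∩ E).card ≤ 2
  low : ∀ x ∈ E, Low (K331 n) (E : Set (Fin 3 ⊕ Fin 3 ⊕ Fin n)) x
  conn : Conn (K331 n) (E : Set (Fin 3 ⊕ Fin 3 ⊕ Fin n))

/-- the equator with four points -/
theorem eq4 {n : ℕ} {a a' b b' : Fin 3 ⊕ Fin 3 ⊕ Fin n} (ha : PA a) (ha' : PA a') (hb : PB b)
    (hb' : PB b') : Eqr ({a, a', b, b'} : Finset (Fin 3 ⊕ Fin 3 ⊕ Fin n)) := by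
  have hab : ∀ {x y : Fin 3 ⊕ Fin 3 ⊕ Fin n}, PA x → PB y → (K331 n).Adj x y := by
    intro x y hx hy
    rw [adj_iff]
    refine ⟨?_, fun h => not_AB h.2 hy, fun h => not_AB hx h.1⟩
    rintro rfl
    exact not_AB hx hy
  have hAA : ∀ {x y : Fin 3 ⊕ Fin 3 ⊕ Fin n}, PA x → PA y → ¬ (K331 n).Adj x y :=
    fun hx hy h => (adj_iff.1 h).2.1 ⟨hx, hy⟩
  have hBB : ∀ {x y : Fin 3 ⊕ Fin 3 ⊕ Fin n}, PB x → PB y → ¬ (K331 n).Adj x y :=
    fun hx hy h => (adj_iff.1 h).2.2 ⟨hx, hy⟩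
  refine ⟨?_, ?_, ?_⟩
  · intro T hT
    have h1 : (T ∩ {a, a'}).card ≤ 1 := by
      rw [Finset.card_le_one]
      intro x hx y hy
      rw [Finset.mem_inter, Finset.mem_insert, Finset.mem_singleton] at hx hy
      by_contra hne
      have hPx : PA x := by rcases hx.2 with h | h <;> rw [h] <;> assumption
      have hPy : PA y := by rcases hy.2 with h | h <;> rw [h] <;> assumption
      exact hAA hPx hPy (hT x hx.1 y hy.1 hne)
    have h2 : (T ∩ {b, b'}).card ≤ 1 := by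
      rw [Finset.card_le_one]
      intro x hx y hy
      rw [Finset.mem_inter, Finset.mem_insert, Finset.mem_singleton] at hx hy
      by_contra hne
      have hPx : PB x := by rcases hx.2 with h | h <;> rw [h] <;> assumption
      have hPy : PB y := by rcases hy.2 with h | h <;> rw [h] <;> assumption
      exact hBB hPx hPy (hT x hx.1 y hy.1 hne)
    have h3 : T ∩ {a, a', b, b'} ⊆ (T ∩ {a, a'}) ∪ (T ∩ {b, b'}) := by
      intro x hx
      simp only [Finset.mem_inter, Finset.mem_insert, Finset.mem_singleton, Finset.mem_union]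
        at hx ⊢
      tauto
    have := (Finset.card_le_card h3).trans (Finset.card_union_le _ _)
    omega
  · intro x hx p hp q hq r hr h1 h2 h3
    simp only [Finset.coe_insert, Finset.coe_singleton, Set.mem_insert_iff,
      Set.mem_singleton_iff] at hp hq hr
    simp only [Finset.mem_insert, Finset.mem_singleton] at hx
    rcases hx with rfl | rfl | rfl | rfl
    · have kp : p = b ∨ p = b' := by
        rcases hp with rfl | rfl | h | h
        · exact absurd h1 (hAA ha ha)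
        · exact absurd h1 (hAA ha ha')
        · exact Or.inl h
        · exact Or.inr h
      have kq : q = b ∨ q = b' := by
        rcases hq with rfl | rfl | h | h
        · exact absurd h2 (hAA ha ha)
        · exact absurd h2 (hAA ha ha')
        · exact Or.inl h
        · exact Or.inr h
      have kr : r = b ∨ r = b' := by
        rcases hr with rfl | rfl | h | h
        · exact absurd h3 (hAA ha ha)
        · exact absurd h3 (hAA ha ha')
        · exact Or.inl h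
        · exact Or.inr h
      rcases kp with rfl | rfl <;> rcases kq with rfl | rfl <;> rcases kr with rfl | rfl <;> simp
    · have kp : p = b ∨ p = b' := by
        rcases hp with rfl | rfl | h | h
        · exact absurd h1 (hAA ha' ha)
        · exact absurd h1 (hAA ha' ha')
        · exact Or.inl h
        · exact Or.inr h
      have kq : q = b ∨ q = b' := by
        rcases hq with rfl | rfl | h | h
        · exact absurd h2 (hAA ha' ha)
        · exact absurd h2 (hAA ha' ha')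
        · exact Or.inl h
        · exact Or.inr h
      have kr : r = b ∨ r = b' := by
        rcases hr with rfl | rfl | h | h
        · exact absurd h3 (hAA ha' ha)
        · exact absurd h3 (hAA ha' ha')
        · exact Or.inl h
        · exact Or.inr h
      rcases kp with rfl | rfl <;> rcases kq with rfl | rfl <;> rcases kr with rfl | rfl <;> simp
    · have kp : p = a ∨ p = a' := by
        rcases hp with h | h | rfl | rfl
        · exact Or.inl h
        · exact Or.inr h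
        · exact absurd h1 (hBB hb hb)
        · exact absurd h1 (hBB hb hb')
      have kq : q = a ∨ q = a' := by
        rcases hq with h | h | rfl | rfl
        · exact Or.inl h
        · exact Or.inr h
        · exact absurd h2 (hBB hb hb)
        · exact absurd h2 (hBB hb hb')
      have kr : r = a ∨ r = a' := by
        rcases hr with h | h | rfl | rfl
        · exact Or.inl h
        · exact Or.inr h
        · exact absurd h3 (hBB hb hb)
        · exact absurd h3 (hBB hb hb')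
      rcases kp with rfl | rfl <;> rcases kq with rfl | rfl <;> rcases kr with rfl | rfl <;> simp
    · have kp : p = a ∨ p = a' := by
        rcases hp with h | h | rfl | rfl
        · exact Or.inl h
        · exact Or.inr h
        · exact absurd h1 (hBB hb' hb)
        · exact absurd h1 (hBB hb' hb')
      have kq : q = a ∨ q = a' := by
        rcases hq with h | h | rfl | rfl
        · exact Or.inl h
        · exact Or.inr h
        · exact absurd h2 (hBB hb' hb)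
        · exact absurd h2 (hBB hb' hb')
      have kr : r = a ∨ r = a' := by
        rcases hr with h | h | rfl | rfl
        · exact Or.inl h
        · exact Or.inr h
        · exact absurd h3 (hBB hb' hb)
        · exact absurd h3 (hBB hb' hb')
      rcases kp with rfl | rfl <;> rcases kq with rfl | rfl <;> rcases kr with rfl | rfl <;> simp
  · have h1 : Conn (K331 n) ({a} ∪ {b} : Set (Fin 3 ⊕ Fin 3 ⊕ Fin n)) :=
      (Conn.singleton _ a).union (Conn.singleton _ b) ⟨a, rfl, b, rfl, hab ha hb⟩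
    have h2 := h1.union (Conn.singleton _ b') ⟨a, Or.inl rfl, b', rfl, hab ha hb'⟩
    have h3 := h2.union (Conn.singleton _ a') ⟨b, Or.inl (Or.inr rfl), a', rfl, (hab ha' hb).symm⟩
    have e : (({a, a', b, b'} : Finset (Fin 3 ⊕ Fin 3 ⊕ Fin n)) : Set (Fin 3 ⊕ Fin 3 ⊕ Fin n)) =
        {a} ∪ {b} ∪ {b'} ∪ {a'} := by
      ext x
      simp only [Finset.coe_insert, Finset.coe_singleton, Set.mem_insert_iff,
        Set.mem_singleton_iff, Set.mem_union]
      tauto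
    rw [e]
    exact h3

/-- the equator with three points -/
theorem eq3 {n : ℕ} {b b' p : Fin 3 ⊕ Fin 3 ⊕ Fin n} (hbb : ¬ (K331 n).Adj b b')
    (h1 : (K331 n).Adj p b) (h2 : (K331 n).Adj p b') :
    Eqr ({b, b', p} : Finset (Fin 3 ⊕ Fin 3 ⊕ Fin n)) := by
  have irr : ∀ x, ¬ (K331 n).Adj x x := fun x h => h.ne rfl
  refine ⟨?_, ?_, ?_⟩
  · intro T hT
    have k1 : (T ∩ {b, b'}).card ≤ 1 := by
      rw [Finset.card_le_one]
      intro x hx y hy
      rw [Finset.mem_inter, Finset.mem_insert, Finset.mem_singleton] at hx hy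
      by_contra hne
      have hadj := hT x hx.1 y hy.1 hne
      rcases hx.2 with h | h <;> rcases hy.2 with h' | h' <;> rw [h, h'] at hadj
      · exact irr _ hadj
      · exact hbb hadj
      · exact hbb hadj.symm
      · exact irr _ hadj
    have k3 : T ∩ {b, b', p} ⊆ (T ∩ {b, b'}) ∪ {p} := by
      intro x hx
      simp only [Finset.mem_inter, Finset.mem_insert, Finset.mem_singleton, Finset.mem_union]
        at hx ⊢
      tauto
    have := (Finset.card_le_card k3).trans (Finset.card_union_le _ _)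
    rw [Finset.card_singleton] at this
    omega
  · intro x hx u hu v hv w hw k1 k2 k3
    simp only [Finset.coe_insert, Finset.coe_singleton, Set.mem_insert_iff,
      Set.mem_singleton_iff] at hu hv hw
    simp only [Finset.mem_insert, Finset.mem_singleton] at hx
    rcases hx with rfl | rfl | rfl
    · have : ∀ z, (z = x ∨ z = b' ∨ z = p) → (K331 n).Adj x z → z = p := by
        rintro z (rfl | rfl | rfl) h
        · exact absurd h (irr _)
        · exact absurd h hbb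
        · rfl
      left
      rw [this u hu k1, this v hv k2]
    · have : ∀ z, (z = b ∨ z = x ∨ z = p) → (K331 n).Adj x z → z = p := by
        rintro z (rfl | rfl | rfl) h
        · exact absurd h.symm hbb
        · exact absurd h (irr _)
        · rfl
      left
      rw [this u hu k1, this v hv k2]
    · have : ∀ z, (z = b ∨ z = b' ∨ z = x) → (K331 n).Adj x z → z = b ∨ z = b' := by
        rintro z (rfl | rfl | rfl) h
        · exact Or.inl rfl
        · exact Or.inr rfl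
        · exact absurd h (irr _)
      rcases this u hu k1 with h | h <;> rcases this v hv k2 with h' | h' <;>
        rcases this w hw k3 with h'' | h'' <;> rw [h, h', h''] <;> simp
  · have k1 : Conn (K331 n) ({p} ∪ {b} : Set (Fin 3 ⊕ Fin 3 ⊕ Fin n)) :=
      (Conn.singleton _ p).union (Conn.singleton _ b) ⟨p, rfl, b, rfl, h1⟩
    have k2 := k1.union (Conn.singleton _ b') ⟨p, Or.inl rfl, b', rfl, h2⟩
    have e : (({b, b', p} : Finset (Fin 3 ⊕ Fin 3 ⊕ Fin n)) : Set (Fin 3 ⊕ Fin 3 ⊕ Fin n)) =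
        {p} ∪ {b} ∪ {b'} := by
      ext x
      simp only [Finset.coe_insert, Finset.coe_singleton, Set.mem_insert_iff,
        Set.mem_singleton_iff, Set.mem_union]
      tauto
    rw [e]
    exact k2

theorem star {n : ℕ} {x y : Fin 3 ⊕ Fin 3 ⊕ Fin n} (h : (K331 n).Adj x y) :
    ∃ E : Finset (Fin 3 ⊕ Fin 3 ⊕ Fin n), E.card = 4 ∧ x ∉ E ∧ y ∉ E ∧ Eqr E := by
  obtain ⟨-, h1, h2⟩ := adj_iff.1 h
  obtain ⟨a, a', pa, pa', q1, q2, q3, q4, q5⟩ := pickA x y h1
  obtain ⟨b, b', pb, pb', r1, r2, r3, r4, r5⟩ := pickB x y h2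
  have ne : ∀ {u v : Fin 3 ⊕ Fin 3 ⊕ Fin n}, PA u → PB v → u ≠ v := by
    rintro u v hu hv rfl
    exact not_AB hu hv
  refine ⟨{a, a', b, b'}, ?_, ?_, ?_, eq4 pa pa' pb pb'⟩
  · rw [Finset.card_insert_of_notMem, Finset.card_insert_of_notMem, Finset.card_insert_of_notMem,
      Finset.card_singleton]
    · simpa using r1
    · simp only [Finset.mem_insert, Finset.mem_singleton, not_or]
      exact ⟨ne pa' pb, ne pa' pb'⟩
    · simp only [Finset.mem_insert, Finset.mem_singleton, not_or]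
      exact ⟨q1, ne pa pb, ne pa pb'⟩
  · simp only [Finset.mem_insert, Finset.mem_singleton, not_or]
    exact ⟨q2.symm, q4.symm, r2.symm, r4.symm⟩
  · simp only [Finset.mem_insert, Finset.mem_singleton, not_or]
    exact ⟨q3.symm, q5.symm, r3.symm, r5.symm⟩

theorem star5 {n : ℕ} (hn : 1 ≤ n) {x y : Fin 3 ⊕ Fin 3 ⊕ Fin n} (h : (K331 n).Adj x y) :
    ∃ (E : Finset (Fin 3 ⊕ Fin 3 ⊕ Fin n)) (u v : Fin 3 ⊕ Fin 3 ⊕ Fin n), E.card = 3 ∧ u ≠ v ∧
      u ∉ E ∧ v ∉ E ∧ x ∉ insert u (insert v E) ∧ y ∉ insert u (insert v E) ∧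
      ¬ (K331 n).Adj u v ∧ Eqr E := by
  obtain ⟨-, h1, h2⟩ := adj_iff.1 h
  obtain ⟨a, a', pa, pa', q1, q2, q3, q4, q5⟩ := pickA x y h1
  obtain ⟨b, b', pb, pb', r1, r2, r3, r4, r5⟩ := pickB x y h2
  have ne : ∀ {u v : Fin 3 ⊕ Fin 3 ⊕ Fin n}, PA u → PB v → u ≠ v := by
    rintro u v hu hv rfl
    exact not_AB hu hv
  have hp : ∃ p : Fin 3 ⊕ Fin 3 ⊕ Fin n,
      p ∉ ({x, y, a, a', b, b'} : Finset (Fin 3 ⊕ Fin 3 ⊕ Fin n)) := by
    by_contra hc
    push Not at hc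
    have e : (Finset.univ : Finset (Fin 3 ⊕ Fin 3 ⊕ Fin n)) ⊆ {x, y, a, a', b, b'} :=
      fun p _ => hc p
    have c1 := Finset.card_le_card e
    have c2 : (({x, y, a, a', b, b'} : Finset (Fin 3 ⊕ Fin 3 ⊕ Fin n))).card ≤ 6 :=
      Finset.card_le_six
    rw [Finset.card_univ] at c1
    simp only [Fintype.card_sum, Fintype.card_fin] at c1
    omega
  obtain ⟨p, hp⟩ := hp
  simp only [Finset.mem_insert, Finset.mem_singleton, not_or] at hp
  obtain ⟨p1, p2, p3, p4, p5, p6⟩ := hp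
  by_cases hB : PB p
  · have hA : ¬ PA p := fun h => not_AB h hB
    refine ⟨{a, a', p}, b, b', ?_, r1, ?_, ?_, ?_, ?_, fun h => (adj_iff.1 h).2.2 ⟨pb, pb'⟩,
      eq3 (fun h => (adj_iff.1 h).2.1 ⟨pa, pa'⟩) ?_ ?_⟩
    · rw [Finset.card_insert_of_notMem, Finset.card_insert_of_notMem, Finset.card_singleton]
      · simpa using fun h => p4 h.symm
      · simp only [Finset.mem_insert, Finset.mem_singleton, not_or]
        exact ⟨q1, fun h => p3 h.symm⟩
    · simp only [Finset.mem_insert, Finset.mem_singleton, not_or]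
      exact ⟨(ne pa pb).symm, (ne pa' pb).symm, fun h => p5 h.symm⟩
    · simp only [Finset.mem_insert, Finset.mem_singleton, not_or]
      exact ⟨(ne pa pb').symm, (ne pa' pb').symm, fun h => p6 h.symm⟩
    · simp only [Finset.mem_insert, Finset.mem_singleton, not_or]
      exact ⟨r2.symm, r4.symm, q2.symm, q4.symm, fun h => p1 h.symm⟩
    · simp only [Finset.mem_insert, Finset.mem_singleton, not_or]
      exact ⟨r3.symm, r5.symm, q3.symm, q5.symm, fun h => p2 h.symm⟩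
    · exact adj_iff.2 ⟨p3, fun h => hA h.1, fun h => not_AB pa h.2⟩
    · exact adj_iff.2 ⟨p4, fun h => hA h.1, fun h => not_AB pa' h.2⟩
  · refine ⟨{b, b', p}, a, a', ?_, q1, ?_, ?_, ?_, ?_, fun h => (adj_iff.1 h).2.1 ⟨pa, pa'⟩,
      eq3 (fun h => (adj_iff.1 h).2.2 ⟨pb, pb'⟩) ?_ ?_⟩
    · rw [Finset.card_insert_of_notMem, Finset.card_insert_of_notMem, Finset.card_singleton]
      · simpa using fun h => p6 h.symm
      · simp only [Finset.mem_insert, Finset.mem_singleton, not_or]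
        exact ⟨r1, fun h => p5 h.symm⟩
    · simp only [Finset.mem_insert, Finset.mem_singleton, not_or]
      exact ⟨ne pa pb, ne pa pb', fun h => p3 h.symm⟩
    · simp only [Finset.mem_insert, Finset.mem_singleton, not_or]
      exact ⟨ne pa' pb, ne pa' pb', fun h => p4 h.symm⟩
    · simp only [Finset.mem_insert, Finset.mem_singleton, not_or]
      exact ⟨q2.symm, q4.symm, r2.symm, r4.symm, fun h => p1 h.symm⟩
    · simp only [Finset.mem_insert, Finset.mem_singleton, not_or]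
      exact ⟨q3.symm, q5.symm, r3.symm, r5.symm, fun h => p2 h.symm⟩
    · exact adj_iff.2 ⟨p5, fun h => not_AB h.2 pb, fun h => hB h.1⟩
    · exact adj_iff.2 ⟨p6, fun h => not_AB h.2 pb', fun h => hB h.1⟩

/-- the points outside of `P` -/
def XS {n : ℕ} (F : Finset (Finset (Fin 3 ⊕ Fin 3 ⊕ Fin n)))
    (P : Finset (Fin 3 ⊕ Fin 3 ⊕ Fin n)) :
    Finset ((Fin 3 ⊕ Fin 3 ⊕ Fin n) ⊕ {T // T ∈ F}) :=
  Pᶜ.map ⟨Sum.inl, Sum.inl_injective⟩

section

variable {n : ℕ} {F : Finset (Finset (Fin 3 ⊕ Fin 3 ⊕ Fin n))}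
  {P : Finset (Fin 3 ⊕ Fin 3 ⊕ Fin n)}

theorem inl_mem_XS {x : Fin 3 ⊕ Fin 3 ⊕ Fin n} :
    (Sum.inl x : (Fin 3 ⊕ Fin 3 ⊕ Fin n) ⊕ {T // T ∈ F}) ∈ XS F P ↔ x ∉ P := by
  simp [XS]

theorem inr_notMem_XS (T : {T // T ∈ F}) :
    (Sum.inr T : (Fin 3 ⊕ Fin 3 ⊕ Fin n) ⊕ {T // T ∈ F}) ∉ XS F P := by
  simp [XS]

theorem card_XS : (XS F P).card + P.card = n + 6 := by
  unfold XS
  rw [Finset.card_map, Finset.card_compl_add_card]
  simp only [Fintype.card_sum, Fintype.card_fin]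
  omega

theorem use_plane (hP : Goals.PLANE) (hF : Tri (K331 n) F)
    {H : SimpleGraph ((Fin 3 ⊕ Fin 3 ⊕ Fin n) ⊕ {T // T ∈ F})}
    {X : Finset ((Fin 3 ⊕ Fin 3 ⊕ Fin n) ⊕ {T // T ∈ F})} {u v : Fin 3 ⊕ Fin 3 ⊕ Fin n}
    {E : Finset (Fin 3 ⊕ Fin 3 ⊕ Fin n)} (hE : Eqr E) (hk : Keep (K331 n) F H X u v)
    (hu : u ∉ E) (hv : v ∉ E) (hX : ∀ z, Sum.inl z ∉ X ↔ z ∈ insert u (insert v E)) :
    Pl H ((X : Set ((Fin 3 ⊕ Fin 3 ⊕ Fin n) ⊕ {T // T ∈ F}))ᶜ) := by
  refine hP _ (K331 n) F H X u v E hF hk hu hv ?_ ?_ (fun T hT => hE.tri T (hF.clique T hT))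
    hE.low hE.conn
  · intro x hx
    rw [hX x]
    exact Finset.mem_insert_of_mem (Finset.mem_insert_of_mem hx)
  · intro x hx
    rw [hX x, Finset.mem_insert, Finset.mem_insert] at hx
    tauto

theorem three (hF : Tri (K331 n) F) (T : {T // T ∈ F}) {z : Fin 3 ⊕ Fin 3 ⊕ Fin n}
    (hz : z ∈ T.1) : ∃ x t, x ∈ T.1 ∧ t ∈ T.1 ∧ z ≠ x ∧ z ≠ t ∧ x ≠ t := by
  have h1 : (T.1.erase z).card = 2 := by
    rw [Finset.card_erase_of_mem hz, hF.card T.1 T.2]
  obtain ⟨x, t, hxt, he⟩ := Finset.card_eq_two.1 h1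
  have hx : x ∈ T.1.erase z := by rw [he]; simp
  have ht : t ∈ T.1.erase z := by rw [he]; simp
  rw [Finset.mem_erase] at hx ht
  exact ⟨x, t, hx.2, ht.2, hx.1.symm, ht.1.symm, hxt⟩

theorem card6 {u v : Fin 3 ⊕ Fin 3 ⊕ Fin n} {E : Finset (Fin 3 ⊕ Fin 3 ⊕ Fin n)} (huv : u ≠ v)
    (hu : u ∉ E) (hv : v ∉ E) : (insert u (insert v E)).card = E.card + 2 := by
  rw [Finset.card_insert_of_notMem, Finset.card_insert_of_notMem hv]
  rw [Finset.mem_insert, not_or]
  exact ⟨huv, hu⟩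

theorem delY (hP : Goals.PLANE) (hK : Goals.KEEPS) (hF : Tri (K331 n) F) (T : {T // T ∈ F})
    {z : Fin 3 ⊕ Fin 3 ⊕ Fin n} (hz : z ∈ T.1) :
    ∃ X : Finset ((Fin 3 ⊕ Fin 3 ⊕ Fin n) ⊕ {T // T ∈ F}), X.card ≤ n ∧
      Pl ((YG (K331 n) F).deleteEdges {s(Sum.inl z, Sum.inr T)})
        ((X : Set ((Fin 3 ⊕ Fin 3 ⊕ Fin n) ⊕ {T // T ∈ F}))ᶜ) := by
  obtain ⟨x, t, hx, ht, h1, h2, h3⟩ := three hF T hz
  obtain ⟨E, e1, e2, e3, e4⟩ := star (hF.clique T.1 T.2 z hz x hx h1)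
  refine ⟨XS F (insert z (insert x E)), ?_, ?_⟩
  · have c1 := card_XS (F := F) (P := insert z (insert x E))
    rw [card6 h1 e2 e3, e1] at c1
    omega
  · refine use_plane hP hF e4 ((hK _ (K331 n) F hF _).2.1 T z x hz hx h1 inr_notMem_XS) e2 e3 ?_
    intro w
    rw [inl_mem_XS, not_not]

theorem conY (hP : Goals.PLANE) (hK : Goals.KEEPS) (hF : Tri (K331 n) F) (T : {T // T ∈ F})
    {z : Fin 3 ⊕ Fin 3 ⊕ Fin n} (hz : z ∈ T.1) :
    ∃ X : Finset ((Fin 3 ⊕ Fin 3 ⊕ Fin n) ⊕ {T // T ∈ F}), Sum.inr T ∈ X ∧ X.card ≤ n + 1 ∧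
      Pl (addN (YG (K331 n) F) (Sum.inr T) (Sum.inl z))
        ((X : Set ((Fin 3 ⊕ Fin 3 ⊕ Fin n) ⊕ {T // T ∈ F}))ᶜ) := by
  obtain ⟨x, t, hx, ht, h1, h2, h3⟩ := three hF T hz
  obtain ⟨E, e1, e2, e3, e4⟩ := star (hF.clique T.1 T.2 x hx t ht h3)
  have hX : ∀ T', (Sum.inr T' : (Fin 3 ⊕ Fin 3 ⊕ Fin n) ⊕ {T // T ∈ F}) ∈
      insert (Sum.inr T) (XS F (insert x (insert t E))) ↔ T' = T := by
    intro T'
    rw [Finset.mem_insert]
    constructor
    · rintro (h | h)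
      · exact Sum.inr.inj h
      · exact absurd h (inr_notMem_XS T')
    · rintro rfl
      exact Or.inl rfl
  refine ⟨insert (Sum.inr T) (XS F (insert x (insert t E))), Finset.mem_insert_self _ _, ?_, ?_⟩
  · have c1 := card_XS (F := F) (P := insert x (insert t E))
    rw [card6 h3 e2 e3, e1] at c1
    have c2 := Finset.card_insert_le (Sum.inr T) (XS F (insert x (insert t E)))
    omega
  · refine use_plane hP hF e4 ((hK _ (K331 n) F hF _).2.2.1 T z x t hz hx ht h1 h2 h3 hX) e2 e3 ?_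
    intro w
    rw [Finset.mem_insert, not_or, inl_mem_XS, not_not]
    constructor
    · exact fun h => h.2
    · exact fun h => ⟨fun h' => (by cases h'), h⟩

end

/-- packet MIN2 -/
theorem gMIN2 : Goals.MINC → Goals.PLANE → Goals.KEEPS → Goals.NOT2 → Goals.MIN2 := by
  intro hM hP hK hN n F hn hF
  refine hM _ _ n (hN n F hF) ?_ ?_ ?_
  · rintro (x | T)
    · have hy : ∃ y, (K331 n).Adj x y := by
        by_cases hx : PA x
        · refine ⟨Sum.inr (Sum.inl 0), adj_iff.2 ⟨?_, fun h => not_AB h.2 ⟨0, rfl⟩,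
            fun h => not_AB hx h.1⟩⟩
          rintro rfl
          exact not_AB hx ⟨0, rfl⟩
        · refine ⟨Sum.inl 0, adj_iff.2 ⟨?_, fun h => hx h.1, fun h => not_AB ⟨0, rfl⟩ h.2⟩⟩
          rintro rfl
          exact hx ⟨0, rfl⟩
      obtain ⟨y, hy⟩ := hy
      by_cases h : ∀ T ∈ F, ¬ (x ∈ T ∧ y ∈ T)
      · exact ⟨Sum.inl y, hy, h⟩
      · push Not at h
        obtain ⟨T, hT, h1, -⟩ := h
        exact ⟨Sum.inr ⟨T, hT⟩, h1⟩
    · have h1 : T.1.Nonempty := by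
        rw [← Finset.card_pos, hF.card T.1 T.2]
        norm_num
      obtain ⟨x, hx⟩ := h1
      exact ⟨Sum.inl x, hx⟩
  · rintro (x | T) (y | T') h
    · obtain ⟨h1, h2⟩ : (K331 n).Adj x y ∧ ∀ T ∈ F, ¬ (x ∈ T ∧ y ∈ T) := h
      obtain ⟨E, e1, e2, e3, e4⟩ := star h1
      refine ⟨XS F (insert x (insert y E)), ?_, ?_⟩
      · have c1 := card_XS (F := F) (P := insert x (insert y E))
        rw [card6 h1.ne e2 e3, e1] at c1
        omega
      · refine use_plane hP hF e4 ((hK _ (K331 n) F hF _).1 x y h2 inr_notMem_XS) e2 e3 ?_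
        intro w
        rw [inl_mem_XS, not_not]
    · exact delY hP hK hF T' h
    · rw [Sym2.eq_swap]
      exact delY hP hK hF T h
    · exact absurd h (fun h => h)
  · rintro (x | T) (y | T') h
    · obtain ⟨h1, h2⟩ : (K331 n).Adj x y ∧ ∀ T ∈ F, ¬ (x ∈ T ∧ y ∈ T) := h
      obtain ⟨E, u, v, e1, huv, hu, hv, hx, hy, hna, e4⟩ := star5 hn h1
      refine Or.inl ⟨XS F (insert u (insert v E)), inl_mem_XS.2 hx, ?_, ?_⟩
      · have c1 := card_XS (F := F) (P := insert u (insert v E))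
        rw [card6 huv hu hv, e1] at c1
        omega
      · refine use_plane hP hF e4 ((hK _ (K331 n) F hF _).2.2.2 x y u v (inl_mem_XS.2 hx)
          (inl_mem_XS.2 hy) ?_ ?_ inr_notMem_XS (Or.inr hna)) hu hv ?_
        · rw [inl_mem_XS, not_not]
          exact Finset.mem_insert_self _ _
        · rw [inl_mem_XS, not_not]
          exact Finset.mem_insert_of_mem (Finset.mem_insert_self _ _)
        · intro w
          rw [inl_mem_XS, not_not]
    · exact Or.inr (conY hP hK hF T' h)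
    · exact Or.inl (conY hP hK hF T h)
    · exact absurd h (fun h => h)

end NApexGraphs.Fam.Helper72
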